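import Pool.Agent.X103.FCExt

/-!
# MP_cfec03_an, Q1: exterior determination for bounded measurable fractional conductivities

For all `n ≥ 1`, `0 < s < 1`, every open `Ω ⊆ ℝⁿ` bounded in one direction, all uniformly elliptic
`γ₁, γ₂ ∈ L^∞(ℝⁿ)` and every open `W ⊆ ℝⁿ \ closure Ω`: if the exterior Dirichlet-to-Neumann maps
agree on `C_c^∞(W)`, then `γ₁ = γ₂` a.e. in `W`.  It even suffices that
`|⟨(Λ₁ - Λ₂) f, g⟩| ≤ K ‖f‖_{L¹} ‖g‖_{L¹}` for some constant `K` and all `f, g ∈ C_c^∞(W)` with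
disjoint supports; `K = 0` is (more than) the question.
-/

set_option autoImplicit false

open MeasureTheory Set
open Pool.Agent.H305R3.FC

namespace Pool.Agent.Results.MP_cfec03_an.ExteriorDetermination

/-- `u` is a weak solution of the fractional conductivity equation in `Ω` with exterior value `f`:
`u ∈ H^s(ℝ^n)`, `u - f` lies in the closure of `C_c^∞(Ω)` in `H^s(ℝ^n)`, and `B_γ(u, φ) = 0` for
all `φ ∈ C_c^∞(Ω)`. -/
structure WeakSol {n : ℕ} (s : ℝ) (Ω : Set (EuclideanSpace ℝ (Fin n)))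
    (γ f u : EuclideanSpace ℝ (Fin n) → ℝ) : Prop where
  memHs : MemHs s u
  ext : MemHt s Ω (fun x => u x - f x)
  eqn : ∀ φ, TestFun Ω φ → Bform s γ u φ = 0

variable {n : ℕ} {s : ℝ}

lemma testFun_memHt (hn : 1 ≤ n) (hs : 0 < s) (hs1 : s < 1)
    {Ω : Set (EuclideanSpace ℝ (Fin n))} {φ : EuclideanSpace ℝ (Fin n) → ℝ}
    (h : TestFun Ω φ) : MemHt s Ω φ := by
  refine ⟨h.memHs hn hs hs1, fun ε hε => ⟨φ, h, ?_⟩⟩
  have : hsSq s (fun x => φ x - φ x) = 0 := by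
    unfold hsSq
    simp
  rw [this]
  exact hε

lemma weakSol_of_corr (hn : 1 ≤ n) (hs : 0 < s) (hs1 : s < 1)
    {Ω : Set (EuclideanSpace ℝ (Fin n))} {γ a : EuclideanSpace ℝ (Fin n) → ℝ}
    (hae : ∀ᵐ x ∂(volume : Measure (EuclideanSpace ℝ (Fin n))), √(γ x) = a x)
    {f v : EuclideanSpace ℝ (Fin n) → ℝ} (hf : MemHs s f) (hv : Corr s Ω a f v) :
    WeakSol s Ω γ f (fun x => f x + v x) := by
  refine ⟨hf.add hv.ht.1, ?_, fun φ hφ => ?_⟩
  · have : (fun x => (f x + v x) - f x) = v := by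
      funext x
      ring
    rw [this]
    exact hv.ht
  · rw [Bform_eq hae, hv.eq φ (testFun_memHt hn hs hs1 hφ), mul_zero]

/-- **Exterior determination** for bounded measurable conductivities, from Dirichlet-to-Neumann
data known modulo operators bounded from `L¹(W)` to `L^∞(W)`, on pairs with disjoint supports. -/
theorem result (n : ℕ) (s : ℝ) (hn : 1 ≤ n) (hs : 0 < s) (hs1 : s < 1)
    (Ω : Set (EuclideanSpace ℝ (Fin n))) (hΩ : IsOpen Ω) (hb : BddOneDir Ω)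
    (γ₁ γ₂ : EuclideanSpace ℝ (Fin n) → ℝ) (h1 : Elliptic γ₁) (h2 : Elliptic γ₂)
    (W : Set (EuclideanSpace ℝ (Fin n))) (hW : IsOpen W) (hWΩ : W ⊆ (closure Ω)ᶜ) (K : ℝ)
    (hDN : ∀ f g, TestFun W f → TestFun W g → Disjoint (tsupport f) (tsupport g) →
      ∀ u₁ u₂, WeakSol s Ω γ₁ f u₁ → WeakSol s Ω γ₂ f u₂ →
        |Bform s γ₁ u₁ g - Bform s γ₂ u₂ g| ≤ K * (∫ x, |f x|) * (∫ x, |g x|)) :
    ∀ᵐ x ∂(volume : Measure (EuclideanSpace ℝ (Fin n))), x ∈ W → γ₁ x = γ₂ x := by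
  obtain ⟨a1, m1, M1, ha1, hae1⟩ := exists_wt h1
  obtain ⟨a2, m2, M2, ha2, hae2⟩ := exists_wt h2
  have ha1' : Wt a1 (min m1 m2) (max M1 M2) :=
    ha1.mono (lt_min ha1.pos ha2.pos) (min_le_left _ _) (le_max_left _ _)
  have ha2' : Wt a2 (min m1 m2) (max M1 M2) :=
    ha2.mono (lt_min ha1.pos ha2.pos) (min_le_right _ _) (le_max_right _ _)
  have hc := fracConst_ne (n := n) hs hs1
  set c : ℝ := fracConst n s / 2 with hcd
  have hc0 : c ≠ 0 := div_ne_zero hc two_ne_zero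
  have hcp : 0 < |c| := abs_pos.2 hc0
  have hDN' : Pool.Agent.X103.FCExt.DNnear s Ω W (|K| / |c|) a1 a2 := by
    intro f g hf hg hd v1 v2 hv1 hv2
    have hfH := hf.memHs hn hs hs1
    have := hDN f g hf hg hd _ _ (weakSol_of_corr hn hs hs1 hae1 hfH hv1)
      (weakSol_of_corr hn hs hs1 hae2 hfH hv2)
    rw [Bform_eq hae1, Bform_eq hae2, ← hcd, ← mul_sub, abs_mul] at this
    have h0 : 0 ≤ (∫ x, |f x|) * (∫ x, |g x|) :=
      mul_nonneg (integral_nonneg fun x => abs_nonneg _) (integral_nonneg fun x => abs_nonneg _)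
    have h3 : K * (∫ x, |f x|) * (∫ x, |g x|) ≤ |K| * ((∫ x, |f x|) * (∫ x, |g x|)) := by
      rw [mul_assoc]
      exact mul_le_mul_of_nonneg_right (le_abs_self K) h0
    have h4 : |Bf s a1 (fun x => f x + v1 x) g - Bf s a2 (fun x => f x + v2 x) g| ≤
        |K| * ((∫ x, |f x|) * (∫ x, |g x|)) / |c| := by
      rw [le_div_iff₀ hcp, mul_comm]
      exact this.trans h3
    calc _ ≤ _ := h4
      _ = _ := by ring
  have hfin := Pool.Agent.X103.FCExt.ext_eq_near hn hs hs1 hΩ.measurableSet hb hW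
    (fun x hx hxΩ => hWΩ hx (subset_closure hxΩ)) ha1' ha2' (by positivity) hDN'
  obtain ⟨-, c1, d1, hc1, -, hb1⟩ := h1
  obtain ⟨-, c2, d2, hc2, -, hb2⟩ := h2
  filter_upwards [hfin, hae1, hae2, hb1, hb2] with x e0 e1 e2 e3 e4 hx
  have e0 := e0 hx
  rw [← e1, ← e2] at e0
  exact (Real.sqrt_inj (hc1.le.trans e3.1) (hc2.le.trans e4.1)).1 e0

end Pool.Agent.Results.MP_cfec03_an.ExteriorDetermination
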